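import Pool.Agent.Helper3.FewP.Goals3

/-!
# Packet STRIP-GRK (project FewPoints): the rank is constant outside a finite set
-/

set_option autoImplicit false

namespace Pool.Agent.Helper2.FewP.GRK

open Pool.Agent.Helper3.FewP

/-- the specialised entry. -/
noncomputable def fz {ι ρ : Type} (A : ι → ρ → PowerSeries (AddMonoidAlgebra ℂ ℤ)) (z : ℂˣ)
    (c : ι) (y : ρ) : EE :=
  HahnSeries.ofPowerSeries ℤ ℂ
    (PowerSeries.map (evz z : AddMonoidAlgebra ℂ ℤ →+* ℂ) (A c y))

lemma li_of_det {κ ρ : Type} [Fintype κ] [DecidableEq κ] (v : κ → ρ → EE) (f : κ → ρ)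
    (h : (Matrix.of fun (i c : κ) => v c (f i)).det ≠ 0) : LinearIndependent EE v := by
  rw [Fintype.linearIndependent_iff]
  intro g hg
  have h1 : Matrix.mulVec (Matrix.of fun (i c : κ) => v c (f i)) g = 0 := by
    funext i
    have h2 := congrFun hg (f i)
    rw [Finset.sum_apply] at h2
    rw [Matrix.mulVec, dotProduct]
    refine Eq.trans (Finset.sum_congr rfl fun c _ => ?_) h2
    rw [Matrix.of_apply, Pi.smul_apply, smul_eq_mul, mul_comm]
  exact fun i => congrFun (Matrix.eq_zero_of_mulVec_eq_zero h h1) i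

theorem t : G_LPZ → G_MIN → G_GRK := by
  intro hL hM ι ρ _ _ A
  classical
  obtain ⟨z₁, hz₁⟩ : ∃ z₁ : ℂˣ, ∀ z : ℂˣ,
      Module.finrank EE (Submodule.span EE (Set.range (fz A z))) ≤
        Module.finrank EE (Submodule.span EE (Set.range (fz A z₁))) := by
    have hR : ∀ z : ℂˣ, Module.finrank EE (Submodule.span EE (Set.range (fz A z))) ≤
        Fintype.card ι := fun z => finrank_range_le_card _
    let F : ℂˣ → ℕ := fun z =>
      Fintype.card ι - Module.finrank EE (Submodule.span EE (Set.range (fz A z)))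
    refine ⟨Function.argmin F, fun z => ?_⟩
    have h1 : F (Function.argmin F) ≤ F z := Function.argmin_le F z
    have h2 := hR z
    have h3 := hR (Function.argmin F)
    simp only [F] at h1 h3 ⊢
    omega
  obtain ⟨κ, a, ha, hspan, hli⟩ := exists_linearIndependent' EE (fz A z₁)
  have : Finite κ := Finite.of_injective a ha
  have : Fintype κ := Fintype.ofFinite κ
  obtain ⟨f, hf, hdet⟩ := hM EE ρ κ (fz A z₁ ∘ a) hli
  have hn : Module.finrank EE (Submodule.span EE (Set.range (fz A z₁))) = Fintype.card κ := by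
    rw [← hspan]
    exact finrank_span_eq_card hli
  set Δ : PowerSeries (AddMonoidAlgebra ℂ ℤ) :=
    (Matrix.of fun (i c : κ) => A (a c) (f i)).det with hΔ
  have hmap : ∀ z : ℂˣ, (Matrix.of fun (i c : κ) => (fz A z ∘ a) c (f i)).det =
      HahnSeries.ofPowerSeries ℤ ℂ
        (PowerSeries.map (evz z : AddMonoidAlgebra ℂ ℤ →+* ℂ) Δ) := by
    intro z
    have h1 := RingHom.map_det ((HahnSeries.ofPowerSeries ℤ ℂ).comp
      (PowerSeries.map (evz z : AddMonoidAlgebra ℂ ℤ →+* ℂ)))
      (Matrix.of fun (i c : κ) => A (a c) (f i))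
    exact h1.symm
  have hΔ0 : Δ ≠ 0 := by
    intro h0
    apply hdet
    rw [hmap, h0, map_zero, map_zero]
  obtain ⟨e, he⟩ : ∃ e, PowerSeries.coeff e Δ ≠ 0 := by
    by_contra hcon
    push Not at hcon
    exact hΔ0 (PowerSeries.ext fun e => by rw [hcon e, map_zero])
  refine ⟨_, Fintype.card κ, hL _ he, fun z hz => ?_⟩
  have hz0 : evz z (PowerSeries.coeff e Δ) ≠ 0 := by
    intro h0
    apply hz
    refine ⟨z.ne_zero, ?_⟩
    rwa [Units.mk0_val]
  have hdz : (Matrix.of fun (i c : κ) => (fz A z ∘ a) c (f i)).det ≠ 0 := by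
    rw [hmap]
    intro h0
    have h1 : PowerSeries.map (evz z : AddMonoidAlgebra ℂ ℤ →+* ℂ) Δ = 0 :=
      HahnSeries.ofPowerSeries_injective (h0.trans (map_zero _).symm)
    apply hz0
    have h2 := congrArg (PowerSeries.coeff e) h1
    rw [PowerSeries.coeff_map, map_zero] at h2
    exact h2
  have hliz := li_of_det (fz A z ∘ a) f hdz
  apply le_antisymm
  · exact (hz₁ z).trans hn.le
  · rw [← finrank_span_eq_card hliz]
    refine Submodule.finrank_mono (Submodule.span_mono ?_)
    exact Set.range_comp_subset_range a (fz A z)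

end Pool.Agent.Helper2.FewP.GRK
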